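import Pool.Agent.H33.AG.CLM
import Pool.Agent.H67.AG.T3

/-!
# CHW: choice of the modulus
-/

set_option autoImplicit false

open MeasureTheory ProbabilityTheory Filter Topology Finset
open scoped Nat ENNReal
open Pool.Agent.H67.AG
open Pool.Agent.H24.T2 (Pset)

namespace Pool.Agent.H33.AG

theorem avgP_le (W m : ℕ) (F G : ℕ → ℝ) (a : ℝ) (ha : 0 ≤ a) (h : ∀ p, F p ≤ G p + a) :
    avgP W m F ≤ avgP W m G + a := by
  unfold avgP
  rcases Nat.eq_zero_or_pos (Pset W m).card with h0 | h0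
  · rw [h0, Nat.cast_zero, div_zero, div_zero]
    linarith
  · have h1 : (0 : ℝ) < (Pset W m).card := by exact_mod_cast h0
    rw [div_add' _ _ _ h1.ne', div_le_div_iff_of_pos_right h1]
    calc ∑ p ∈ Pset W m, F p ≤ ∑ p ∈ Pset W m, (G p + a) := Finset.sum_le_sum fun p _ => h p
      _ = ∑ p ∈ Pset W m, G p + a * (Pset W m).card := by
          rw [Finset.sum_add_distrib, Finset.sum_const, nsmul_eq_mul, mul_comm a]

theorem avgP_abs (W m : ℕ) (F : ℕ → ℝ) (h0 : ∀ p, 0 ≤ F p) (h1 : ∀ p, F p ≤ 1) :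
    |avgP W m F| ≤ 1 := by
  unfold avgP
  have h2 : 0 ≤ ∑ p ∈ Pset W m, F p := Finset.sum_nonneg fun p _ => h0 p
  rw [abs_of_nonneg (div_nonneg h2 (Nat.cast_nonneg _))]
  refine div_le_one_of_le₀ ?_ (Nat.cast_nonneg _)
  calc ∑ p ∈ Pset W m, F p ≤ ∑ p ∈ Pset W m, (1 : ℝ) := Finset.sum_le_sum fun p _ => h1 p
    _ = (Pset W m).card := by rw [Finset.sum_const, nsmul_eq_mul, mul_one]

theorem Lam_le {Ω : Type} [MeasurableSpace Ω] (hul : T_UL) (U : Ultrafilter ℕ) (W : ℕ)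
    (P : Measure Ω) [IsProbabilityMeasure P] (T : Ω ≃ᵐ Ω) {k : ℕ} (β : Fin k → ℕ) (σ : ℝ)
    (y : Fin k → Ω → ℝ) (A A' : Set Ω) :
    Lam U W P T β σ y A' ≤ Lam U W P T β σ y A + P.real (symmDiff A A') := by
  obtain ⟨-, h2, h3, -, h5⟩ := hul U
  unfold Lam
  have hb : ∀ B : Set Ω, ∀ m : ℕ, |avgP W m fun p => P.real (B ∩ bd T β σ y p)| ≤ 1 :=
    fun B m => avgP_abs W m _ (fun p => measureReal_nonneg) (fun p => measureReal_le_one)
  have hs : P.real (symmDiff A A') = ul U (fun _ => P.real (symmDiff A A')) := (h5 _).symm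
  rw [hs, ← h3 _ _ ⟨1, hb A⟩ ⟨|P.real (symmDiff A A')|, fun _ => le_rfl⟩]
  refine h2 _ _ ⟨1, hb A'⟩ ⟨1 + |P.real (symmDiff A A')|, fun n => ?_⟩
    (Eventually.of_forall fun m => ?_)
  · exact (abs_add_le _ _).trans (add_le_add_left (hb A n) _)
  · refine avgP_le W m _ _ _ measureReal_nonneg fun p => ?_
    have h6 : A' ∩ bd T β σ y p ⊆ (A ∩ bd T β σ y p) ∪ symmDiff A A' := by
      rintro x ⟨hx1, hx2⟩
      by_cases hxA : x ∈ A
      · exact Or.inl ⟨hxA, hx2⟩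
      · exact Or.inr (Or.inr ⟨hx1, hxA⟩)
    exact (measureReal_mono h6).trans (measureReal_union_le _ _)

theorem Dt_meas (c : CtxE) (i : Fin c.k) : Measurable (c.Dt i) :=
  c.Dm.comp (c.T.measurable.iterate _)

theorem D1_meas (c : CtxE) (i : Fin c.k) : Measurable (c.D1 i) := (Dt_meas c i).comp measurable_fst

theorem D2_meas (c : CtxE) (i : Fin c.k) : Measurable (c.D2 i) := (Dt_meas c i).comp measurable_snd

theorem dl_meas (c : CtxE) (i : Fin c.k) : Measurable (dl c.D1 c.D2 i) := by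
  classical
  unfold dl
  exact Measurable.ite (measurableSet_eq_fun (D1_meas c i) (D2_meas c i)) measurable_const
    measurable_const

theorem dl_abs (c : CtxE) (i : Fin c.k) (q : c.X × c.X) : |dl c.D1 c.D2 i q| ≤ 1 := by
  unfold dl
  split_ifs <;> norm_num

theorem DD_abs (c : CtxE) (i : Fin c.k) (q : c.X × c.X) : |c.D1 i q * c.D2 i q| ≤ 1 := by
  have h1 : ∀ x, |c.Dt i x| = 1 := by
    intro x
    unfold Ctx.Dt
    rcases c.Dv (c.T^[c.β i] x) with h | h <;> rw [h] <;> norm_num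
  unfold Ctx.D1 Ctx.D2
  rw [abs_mul, h1, h1]
  norm_num

theorem Dlt_pos {k : ℕ} (β : Fin k → ℕ) : 0 < Dlt β := by
  unfold Dlt
  refine Finset.prod_pos fun i _ => Finset.prod_pos fun j _ => ?_
  split_ifs with h
  · exact one_pos
  · rw [Int.natAbs_pos]
    intro h1
    exact h (by exact_mod_cast sub_eq_zero.1 h1)

theorem pf_CHW (hul : T_UL) (hlv : T_LV) (hrs : T_RS) (hle : T_LE) (hj2 : T_J2) (hj3 : T_J3) :
    T_CHW := by
  intro c Z X1 θ hZ hX1 hX1g hθ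
  have hT : MeasurePreserving c.T c.μ c.μ := c.erg.toMeasurePreserving
  have hP : IsProbabilityMeasure (JJ c.μ Z) := (hj2 c.X c.μ Z).1
  have hk0 : (0 : ℝ) < (c.k : ℝ) + 1 := by positivity
  -- the error on X1
  have hX1Y : X1 ⊆ c.Y := fun x hx => (hX1g hx).1
  have hX1m : MeasurableSet X1 := Rt_le _ _ hX1
  have hlim := hle c c.X c.μ c.T id X1 hT ⟨MeasurePreserving.id _, fun ω => rfl⟩ hX1 hX1Y
  have hem : Measurable c.e := c.em.mono (Rt_le _) le_rfl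
  have hei : Integrable c.e c.μ :=
    Integrable.of_bound hem.aestronglyMeasurable 1 (Eventually.of_forall fun x => by
      rw [Real.norm_eq_abs, abs_le]
      exact ⟨by linarith [(c.e0 x).1], (c.e0 x).2⟩)
  have hint : ∫ ω in X1, c.e (id ω) ∂c.μ ≤ 4 * κ₀ * c.μ.real X1 := by
    have h1 : ∫ ω in X1, c.e (id ω) ∂c.μ ≤ ∫ _ω in X1, (4 * κ₀) ∂c.μ := by
      refine setIntegral_mono_on hei.integrableOn (integrableOn_const (measure_ne_top _ _)) hX1m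
        fun x hx => ?_
      exact (hX1g hx).2
    rw [setIntegral_const, smul_eq_mul] at h1
    linarith
  have e1 : ∀ᶠ w in (c.V : Filter ℕ), Lam (c.U w) (c.W w) c.μ c.T c.β c.σ c.Dt X1 ≤
      4 * κ₀ * c.μ.real X1 + θ / 2 := by
    have h1 : ∫ ω in X1, c.e (id ω) ∂c.μ < 4 * κ₀ * c.μ.real X1 + θ / 2 := by linarith
    filter_upwards [hlim.eventually (gt_mem_nhds h1)] with w hw
    exact hw.le
  -- the sets
  obtain ⟨w1, hw1⟩ := hrs c.X c.μ c.T X1 (θ / 2) hX1 (by positivity)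
  -- the conditional expectations
  have h2 : ∀ i, ∃ w₀ : ℕ, ∀ W : ℕ, 0 < W → w₀ ! ∣ W →
      ∫ ω, |((JJ c.μ Z)[dl c.D1 c.D2 i | Rt (TT c.T)]) ω -
        ((JJ c.μ Z)[dl c.D1 c.D2 i | Inv (TT c.T) W]) ω| ∂(JJ c.μ Z) ≤ θ / ((c.k : ℝ) + 1) :=
    fun i => hlv (c.X × c.X) (JJ c.μ Z) (TT c.T) _ _ (dl_meas c i) ⟨1, dl_abs c i⟩ (by positivity)
  have h3 : ∀ i, ∃ w₀ : ℕ, ∀ W : ℕ, 0 < W → w₀ ! ∣ W →
      ∫ ω, |((JJ c.μ Z)[fun q => c.D1 i q * c.D2 i q | Rt (TT c.T)]) ω -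
        ((JJ c.μ Z)[fun q => c.D1 i q * c.D2 i q | Inv (TT c.T) W]) ω| ∂(JJ c.μ Z) ≤ θ / 2 :=
    fun i => hlv (c.X × c.X) (JJ c.μ Z) (TT c.T) _ _ ((D1_meas c i).mul (D2_meas c i))
      ⟨1, DD_abs c i⟩ (by positivity)
  choose w2 hw2 using h2
  choose w3 hw3 using h3
  have ev : ∀ n : ℕ, ∀ᶠ w in (c.V : Filter ℕ), n ≤ w := fun n => c.hV (eventually_ge_atTop n)
  have e2 : ∀ᶠ w in (c.V : Filter ℕ), ∀ i, w2 i ≤ w := eventually_all.2 fun i => ev _
  have e3 : ∀ᶠ w in (c.V : Filter ℕ), ∀ i, w3 i ≤ w := eventually_all.2 fun i => ev _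
  obtain ⟨w, f1, f2, f3, f4, f5, f6⟩ := (e1.and (e2.and (e3.and ((ev w1).and ((ev 1).and
    (ev (⌈(c.k : ℝ) ^ 2 / θ⌉₊))))))).exists
  have hWpos : 0 < c.W w := Nat.mul_pos c.Qpos (Nat.factorial_pos w)
  have hdvd : ∀ n, n ≤ w → n ! ∣ c.W w := fun n hn =>
    (Nat.factorial_dvd_factorial hn).trans (dvd_mul_left _ _)
  obtain ⟨A', hA', hA'e⟩ := hw1 (c.W w) hWpos (hdvd w1 f4)
  have hYW : MeasurableSet[Inv c.T (c.W w)] c.Y :=
    Inv_mono c.T (dvd_mul_right c.Q _) _ (meas_Inv.2 ⟨c.Ym, c.Yinv⟩)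
  have hsub : symmDiff X1 (A' ∩ c.Y) ⊆ symmDiff X1 A' := by
    rintro x (⟨h1, h2⟩ | ⟨h1, h2⟩)
    · refine Or.inl ⟨h1, fun h3 => h2 ⟨h3, hX1Y h1⟩⟩
    · exact Or.inr ⟨h1.1, h2⟩
  have hsd : c.μ.real (symmDiff X1 (A' ∩ c.Y)) ≤ θ / 2 := (measureReal_mono hsub).trans hA'e
  refine ⟨w, A' ∩ c.Y, f5, hA'.inter hYW, Set.inter_subset_right, by linarith, ?_, ?_, ?_, ?_⟩
  · have h4 := Lam_le hul (c.U w) (c.W w) c.μ c.T c.β c.σ c.Dt X1 (A' ∩ c.Y)
    linarith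
  · -- the mismatch
    have hI : ∀ i, Integrable (fun q => ((JJ c.μ Z)[dl c.D1 c.D2 i | Inv (TT c.T) (c.W w)]) q -
        ((JJ c.μ Z)[dl c.D1 c.D2 i | Rt (TT c.T)]) q) (JJ c.μ Z) := fun i =>
      integrable_condExp.sub integrable_condExp
    have h4 : ∀ q, |Mis (JJ c.μ Z) (Inv (TT c.T) (c.W w)) c.D1 c.D2 q - c.MR Z q| ≤
        ∑ i, |((JJ c.μ Z)[dl c.D1 c.D2 i | Inv (TT c.T) (c.W w)]) q -
          ((JJ c.μ Z)[dl c.D1 c.D2 i | Rt (TT c.T)]) q| := by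
      intro q
      unfold CtxE.MR Mis
      rw [← Finset.sum_sub_distrib]
      exact Finset.abs_sum_le_sum_abs _ _
    calc ∫ q, |Mis (JJ c.μ Z) (Inv (TT c.T) (c.W w)) c.D1 c.D2 q - c.MR Z q| ∂(JJ c.μ Z)
        ≤ ∫ q, ∑ i, |((JJ c.μ Z)[dl c.D1 c.D2 i | Inv (TT c.T) (c.W w)]) q -
          ((JJ c.μ Z)[dl c.D1 c.D2 i | Rt (TT c.T)]) q| ∂(JJ c.μ Z) :=
          integral_mono_of_nonneg (Eventually.of_forall fun q => abs_nonneg _)
            (integrable_finset_sum _ fun i _ => (hI i).abs) (Eventually.of_forall h4)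
      _ = ∑ i, ∫ q, |((JJ c.μ Z)[dl c.D1 c.D2 i | Inv (TT c.T) (c.W w)]) q -
          ((JJ c.μ Z)[dl c.D1 c.D2 i | Rt (TT c.T)]) q| ∂(JJ c.μ Z) :=
          integral_finset_sum _ fun i _ => (hI i).abs
      _ ≤ ∑ _i : Fin c.k, θ / ((c.k : ℝ) + 1) := by
          refine Finset.sum_le_sum fun i _ => ?_
          have h5 := hw2 i (c.W w) hWpos (hdvd _ (f2 i))
          refine le_trans (le_of_eq ?_) h5
          refine integral_congr_ae (Eventually.of_forall fun q => ?_)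
          exact abs_sub_comm _ _
      _ ≤ θ := by
          rw [Finset.sum_const, Finset.card_univ, Fintype.card_fin, nsmul_eq_mul,
            ← mul_div_assoc, div_le_iff₀ hk0]
          nlinarith
  · intro i
    have hW2 : 0 < c.W w * Dlt c.β := Nat.mul_pos hWpos (Dlt_pos _)
    have h5 := hw3 i (c.W w) hWpos (hdvd _ (f3 i))
    have h6 := hw3 i (c.W w * Dlt c.β) hW2 ((hdvd _ (f3 i)).trans (dvd_mul_right _ _))
    have i1 : Integrable (fun q => |((JJ c.μ Z)[fun q => c.D1 i q * c.D2 i q | Rt (TT c.T)]) q -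
        ((JJ c.μ Z)[fun q => c.D1 i q * c.D2 i q | Inv (TT c.T) (c.W w)]) q|) (JJ c.μ Z) :=
      (integrable_condExp.sub integrable_condExp).abs
    have i2 : Integrable (fun q => |((JJ c.μ Z)[fun q => c.D1 i q * c.D2 i q | Rt (TT c.T)]) q -
        ((JJ c.μ Z)[fun q => c.D1 i q * c.D2 i q | Inv (TT c.T) (c.W w * Dlt c.β)]) q|)
        (JJ c.μ Z) := (integrable_condExp.sub integrable_condExp).abs
    calc ∫ q, |((JJ c.μ Z)[fun q => c.D1 i q * c.D2 i q | Inv (TT c.T) (c.W w * Dlt c.β)]) q -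
        ((JJ c.μ Z)[fun q => c.D1 i q * c.D2 i q | Inv (TT c.T) (c.W w)]) q| ∂(JJ c.μ Z)
        ≤ ∫ q, (|((JJ c.μ Z)[fun q => c.D1 i q * c.D2 i q | Rt (TT c.T)]) q -
            ((JJ c.μ Z)[fun q => c.D1 i q * c.D2 i q | Inv (TT c.T) (c.W w)]) q| +
          |((JJ c.μ Z)[fun q => c.D1 i q * c.D2 i q | Rt (TT c.T)]) q -
            ((JJ c.μ Z)[fun q => c.D1 i q * c.D2 i q | Inv (TT c.T) (c.W w * Dlt c.β)]) q|)
            ∂(JJ c.μ Z) := by
          refine integral_mono_of_nonneg (Eventually.of_forall fun q => abs_nonneg _) (i1.add i2)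
            (Eventually.of_forall fun q => ?_)
          have h7 := abs_sub_le
            (((JJ c.μ Z)[fun q => c.D1 i q * c.D2 i q | Inv (TT c.T) (c.W w * Dlt c.β)]) q)
            (((JJ c.μ Z)[fun q => c.D1 i q * c.D2 i q | Rt (TT c.T)]) q)
            (((JJ c.μ Z)[fun q => c.D1 i q * c.D2 i q | Inv (TT c.T) (c.W w)]) q)
          rw [abs_sub_comm (((JJ c.μ Z)[fun q => c.D1 i q * c.D2 i q |
            Inv (TT c.T) (c.W w * Dlt c.β)]) q)
            (((JJ c.μ Z)[fun q => c.D1 i q * c.D2 i q | Rt (TT c.T)]) q)] at h7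
          exact h7.trans (le_of_eq (add_comm _ _))
      _ ≤ θ := by
          rw [integral_add i1 i2]
          linarith
  · have h8 : (c.k : ℝ) ^ 2 / θ ≤ w := (Nat.le_ceil _).trans (by exact_mod_cast f6)
    have hw0 : (0 : ℝ) < w := by exact_mod_cast f5
    rw [div_le_iff₀ hθ] at h8
    rw [div_le_iff₀ hw0]
    linarith

end Pool.Agent.H33.AG
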