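import Pool.Agent.H67.AG.T7

/-!
# CLM: the mass of the classes
-/

set_option autoImplicit false

open MeasureTheory ProbabilityTheory Filter Topology Finset
open scoped Nat ENNReal
open Pool.Agent.H67.AG

namespace Pool.Agent.H33.AG

theorem TT_iter {X : Type} [MeasurableSpace X] (T : X ≃ᵐ X) (n : ℕ) (q : X × X) :
    (TT T)^[n] q = (T^[n] q.1, T^[n] q.2) := by
  induction n with
  | zero => rfl
  | succ n ih =>
    rw [Function.iterate_succ_apply', ih, Function.iterate_succ_apply',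
      Function.iterate_succ_apply']
    rfl

theorem meas_Inv {Ω : Type} [MeasurableSpace Ω] {T : Ω ≃ᵐ Ω} {n : ℕ} {A : Set Ω} :
    MeasurableSet[Inv T n] A ↔ MeasurableSet A ∧ T^[n] ⁻¹' A = A :=
  MeasurableSpace.measurableSet_invariants

theorem Inv_mono {Ω : Type} [MeasurableSpace Ω] (T : Ω ≃ᵐ Ω) {m n : ℕ} (h : m ∣ n) :
    Inv T m ≤ Inv T n := by
  intro A hA
  obtain ⟨h1, h2⟩ := meas_Inv.1 hA
  refine meas_Inv.2 ⟨h1, ?_⟩
  obtain ⟨d, rfl⟩ := h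
  rw [Function.iterate_mul]
  have h3 : ∀ r : ℕ, ((T^[m])^[r]) ⁻¹' A = A := by
    intro r
    induction r with
    | zero => rfl
    | succ r ih =>
      rw [Function.iterate_succ, Set.preimage_comp, ih, h2]
  exact h3 d

theorem Inv_le_Rt {Ω : Type} [MeasurableSpace Ω] (T : Ω ≃ᵐ Ω) {n : ℕ} (hn : 0 < n) :
    Inv T n ≤ Rt T :=
  (Inv_mono T (Nat.dvd_factorial hn le_rfl)).trans (le_iSup (fun w : ℕ => Inv T (w !)) n)

theorem Inv_le {Ω : Type} [MeasurableSpace Ω] (T : Ω ≃ᵐ Ω) (n : ℕ) : Inv T n ≤ ‹MeasurableSpace Ω› :=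
  fun _ hA => (meas_Inv.1 hA).1

theorem Rt_le {Ω : Type} [MeasurableSpace Ω] (T : Ω ≃ᵐ Ω) : Rt T ≤ ‹MeasurableSpace Ω› :=
  iSup_le fun w => Inv_le T (w !)

theorem fst_Inv {X : Type} [MeasurableSpace X] (T : X ≃ᵐ X) (n : ℕ) {A : Set X}
    (hA : MeasurableSet[Inv T n] A) : MeasurableSet[Inv (TT T) n] (Prod.fst ⁻¹' A) := by
  obtain ⟨h1, h2⟩ := meas_Inv.1 hA
  refine meas_Inv.2 ⟨measurable_fst h1, ?_⟩
  ext q
  rw [Set.mem_preimage, Set.mem_preimage, TT_iter, Set.mem_preimage]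
  exact (Set.ext_iff.1 h2) q.1

theorem snd_Inv {X : Type} [MeasurableSpace X] (T : X ≃ᵐ X) (n : ℕ) {A : Set X}
    (hA : MeasurableSet[Inv T n] A) : MeasurableSet[Inv (TT T) n] (Prod.snd ⁻¹' A) := by
  obtain ⟨h1, h2⟩ := meas_Inv.1 hA
  refine meas_Inv.2 ⟨measurable_snd h1, ?_⟩
  ext q
  rw [Set.mem_preimage, Set.mem_preimage, TT_iter, Set.mem_preimage]
  exact (Set.ext_iff.1 h2) q.2

theorem fst_Rt {X : Type} [MeasurableSpace X] (T : X ≃ᵐ X) {A : Set X}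
    (hA : MeasurableSet[Rt T] A) : MeasurableSet[Rt (TT T)] (Prod.fst ⁻¹' A) := by
  have h : (Rt T).comap Prod.fst ≤ Rt (TT T) := by
    rw [Rt, MeasurableSpace.comap_iSup]
    refine iSup_le fun w => ?_
    refine le_trans ?_ (le_iSup (fun w : ℕ => Inv (TT T) (w !)) w)
    rintro _ ⟨B, hB, rfl⟩
    exact fst_Inv T _ hB
  exact h _ ⟨A, hA, rfl⟩

theorem snd_Rt {X : Type} [MeasurableSpace X] (T : X ≃ᵐ X) {A : Set X}
    (hA : MeasurableSet[Rt T] A) : MeasurableSet[Rt (TT T)] (Prod.snd ⁻¹' A) := by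
  have h : (Rt T).comap Prod.snd ≤ Rt (TT T) := by
    rw [Rt, MeasurableSpace.comap_iSup]
    refine iSup_le fun w => ?_
    refine le_trans ?_ (le_iSup (fun w : ℕ => Inv (TT T) (w !)) w)
    rintro _ ⟨B, hB, rfl⟩
    exact snd_Inv T _ hB
  exact h _ ⟨A, hA, rfl⟩

theorem Y_Rt (c : CtxE) : MeasurableSet[Rt c.T] c.Y :=
  Inv_le_Rt c.T c.Qpos _ (meas_Inv.2 ⟨c.Ym, c.Yinv⟩)

theorem Xg_Rt (c : CtxE) : MeasurableSet[Rt c.T] c.Xg := by
  have h1 : MeasurableSet[Rt c.T] {x | c.e x ≤ 4 * κ₀} := c.em measurableSet_Iic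
  exact (Y_Rt c).inter h1

theorem MR_meas (c : CtxE) (Z : SA c.X) : Measurable[Rt (TT c.T)] (c.MR Z) := by
  have h : c.MR Z = fun q => ∑ i, ((JJ c.μ Z)[dl c.D1 c.D2 i | Rt (TT c.T)]) q := rfl
  rw [h]
  exact Finset.measurable_sum _ fun i _ => stronglyMeasurable_condExp.measurable

theorem Rel_Rt (c : CtxE) (Z : SA c.X) : MeasurableSet[Rt (TT c.T)] (c.Rel Z) := by
  have h1 := fst_Rt c.T (Xg_Rt c)
  have h2 := snd_Rt c.T (Xg_Rt c)
  have h3 : MeasurableSet[Rt (TT c.T)] {q | c.MR Z q ≤ 1 / 2} := (MR_meas c Z) measurableSet_Iic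
  exact h1.inter (h2.inter h3)

theorem pf_CLM (hck : Pool.Agent.H40.AG.T_CK) (hj1 : T_J1) (hj2 : T_J2) : T_CLM := by
  intro c Z hZ hCP
  have hT : MeasurePreserving c.T c.μ c.μ := c.erg.toMeasurePreserving
  have hRel := Rel_Rt c Z
  have hRelm : MeasurableSet (c.Rel Z) := Rt_le _ _ hRel
  obtain ⟨cc, hcm, hc01, hcae⟩ := hck c.X c.μ c.T Z (c.Rel Z) hT hZ hRel
  have hCP' : 0 < (JJ c.μ Z).real (c.Rel Z) := hCP
  have hcm' : Measurable cc := hcm.mono (Rt_le _) le_rfl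
  -- the sets
  have hX1 : ∀ N : ℕ, MeasurableSet[Rt c.T] (c.Xg ∩ {x | 1 / ((N : ℝ) + 1) ≤ cc x}) := fun N =>
    (Xg_Rt c).inter (hcm measurableSet_Ici)
  obtain ⟨N, hN⟩ : ∃ N : ℕ, 0 < c.μ.real (c.Xg ∩ {x | 1 / ((N : ℝ) + 1) ≤ cc x}) := by
    by_contra hcon
    push Not at hcon
    have h0 : ∀ N : ℕ, c.μ (c.Xg ∩ {x | 1 / ((N : ℝ) + 1) ≤ cc x}) = 0 := by
      intro N
      have h1 := le_antisymm (hcon N) measureReal_nonneg
      exact (measureReal_eq_zero_iff).1 h1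
    have h1 : ∀ᵐ x ∂c.μ, ∀ N : ℕ, x ∉ (c.Xg ∩ {x | 1 / ((N : ℝ) + 1) ≤ cc x}) :=
      ae_all_iff.2 fun N => measure_eq_zero_iff_ae_notMem.1 (h0 N)
    have h2 : ∀ᵐ x ∂c.μ, (kap c.μ Z x) (Prod.mk x ⁻¹' (Prod.swap ⁻¹' (c.Rel Z))) = 0 := by
      filter_upwards [h1, hcae] with x hx1 hx2
      have h3 : (Prod.mk x ⁻¹' (Prod.swap ⁻¹' (c.Rel Z))) = {x' | (x', x) ∈ c.Rel Z} := rfl
      rw [h3]
      by_cases hxg : x ∈ c.Xg
      · have h4 : cc x = 0 := by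
          by_contra hne
          have hpos : 0 < cc x := lt_of_le_of_ne (hc01 x).1 (Ne.symm hne)
          obtain ⟨N, hN⟩ := exists_nat_one_div_lt hpos
          exact hx1 N ⟨hxg, hN.le⟩
        rw [h4] at hx2
        exact (measureReal_eq_zero_iff).1 hx2
      · have h5 : {x' | (x', x) ∈ c.Rel Z} = (∅ : Set c.X) := by
          rw [Set.eq_empty_iff_forall_notMem]
          intro x' hx'
          exact hxg hx'.2.1
        rw [h5, measure_empty]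
    have h6 : (JJ c.μ Z) (Prod.swap ⁻¹' (c.Rel Z)) = 0 := by
      rw [JJ, Measure.compProd_apply (measurable_swap hRelm), lintegral_congr_ae h2]
      simp
    have h7 := (hj2 c.X c.μ Z).2.2.2.measure_preimage hRelm.nullMeasurableSet
    rw [h6] at h7
    have h8 : (JJ c.μ Z).real (c.Rel Z) = 0 := by
      rw [measureReal_def, ← h7]
      rfl
    linarith
  refine ⟨1 / ((N : ℝ) + 1), c.Xg ∩ {x | 1 / ((N : ℝ) + 1) ≤ cc x}, by positivity, ?_, hX1 N,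
    Set.inter_subset_left, hN, ?_⟩
  · rw [div_le_one (by positivity)]
    linarith [Nat.cast_nonneg (α := ℝ) N]
  · filter_upwards [hcae] with x hx hx1
    rw [hx]
    exact hx1.2

end Pool.Agent.H33.AG
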