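import Pool.Agent.H67.AG.T1

/-!
# NXA: the almost periodic sets form a sigma-algebra
-/

set_option autoImplicit false

open MeasureTheory ProbabilityTheory Filter Topology Finset
open scoped Nat ENNReal
open Pool.Agent.H67.AG

namespace Pool.Agent.H33.AG

section

variable {X : Type} [MeasurableSpace X] [StandardBorelSpace X] {μ : Measure X}
  [IsProbabilityMeasure μ] {T : X ≃ᵐ X} {Z : SA X}

theorem NX_empty : NX μ T Z ∅ := by
  refine ⟨MeasurableSet.empty, fun δ hδ => ⟨0, 1, fun l => l.elim0, 1, one_pos, fun l => l.elim0,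
    one_pos, fun E _ _ _ => ?_⟩⟩
  have h1 : (E ∩ {q : X × X | ¬ (q.1 ∈ (∅ : Set X) ↔ q.2 ∈ (∅ : Set X))}) = ∅ := by
    ext q
    simp
  rw [h1, measureReal_empty]
  positivity

theorem NX_compl {A : Set X} (hA : NX μ T Z A) : NX μ T Z Aᶜ := by
  refine ⟨hA.1.compl, fun δ hδ => ?_⟩
  obtain ⟨n, W, H, ε, h1, h2, h3, h4⟩ := hA.2 δ hδ
  refine ⟨n, W, H, ε, h1, h2, h3, fun E hE hi hG => ?_⟩
  have h5 : {q : X × X | ¬ (q.1 ∈ Aᶜ ↔ q.2 ∈ Aᶜ)} = {q : X × X | ¬ (q.1 ∈ A ↔ q.2 ∈ A)} := by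
    ext q
    simp only [Set.mem_compl_iff, Set.mem_setOf_eq]
    tauto
  rw [h5]
  exact h4 E hE hi hG

theorem Adm_mul {W W' : ℕ} {H : X × X → ℝ} (h : Adm T W H) : Adm T (W * W') H := by
  refine ⟨h.1, h.2.1, fun q => ?_⟩
  rw [Function.iterate_mul]
  have h1 : ∀ (m : ℕ) (q : X × X), H (((TT T)^[W])^[m] q) = H q := by
    intro m
    induction m with
    | zero => exact fun q => rfl
    | succ m ih =>
      intro q
      rw [Function.iterate_succ_apply', h.2.2, ih]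
  exact h1 W' q

theorem Gb_term_nonneg (n : ℕ) (H : Fin n → X × X → ℝ) (q : X × X) (l : Fin n) (t : ℕ) :
    0 ≤ ∫ y, (H l (T^[t] q.1, T^[t] y) - H l (T^[t] q.2, T^[t] y)) ^ 2 ∂(kap μ Z q.1) :=
  integral_nonneg fun _ => sq_nonneg _

theorem Gb_mono {n W W' : ℕ} (H : Fin n → X × X → ℝ) (q : X × X) (h : W ≤ W') :
    Gb μ Z T n W H q ≤ Gb μ Z T n W' H q := by
  unfold Gb
  refine Finset.sum_le_sum fun l _ => ?_
  exact Finset.sum_le_sum_of_subset_of_nonneg (Finset.range_mono h)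
    fun t _ _ => Gb_term_nonneg n H q l t

theorem Gb_nonneg {n W : ℕ} (H : Fin n → X × X → ℝ) (q : X × X) : 0 ≤ Gb μ Z T n W H q := by
  unfold Gb
  exact Finset.sum_nonneg fun l _ => Finset.sum_nonneg fun t _ => Gb_term_nonneg n H q l t

theorem Gb_append {n n' W : ℕ} (H : Fin n → X × X → ℝ) (H' : Fin n' → X × X → ℝ) (q : X × X) :
    Gb μ Z T (n + n') W (Fin.append H H') q = Gb μ Z T n W H q + Gb μ Z T n' W H' q := by
  unfold Gb
  rw [Fin.sum_univ_add]
  simp only [Fin.append_left, Fin.append_right]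

theorem NX_union {A B : Set X} (hA : NX μ T Z A) (hB : NX μ T Z B) : NX μ T Z (A ∪ B) := by
  refine ⟨hA.1.union hB.1, fun δ hδ => ?_⟩
  obtain ⟨n, W, H, ε, h1, h2, h3, h4⟩ := hA.2 (δ / 2) (by positivity)
  obtain ⟨n', W', H', ε', h1', h2', h3', h4'⟩ := hB.2 (δ / 2) (by positivity)
  refine ⟨n + n', W * W', Fin.append H H', min ε ε', Nat.mul_pos h1 h1', ?_, lt_min h3 h3',
    fun E hE hi hG => ?_⟩
  · intro l
    refine Fin.addCases (fun l => ?_) (fun l => ?_) l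
    · rw [Fin.append_left]
      exact Adm_mul (h2 l)
    · rw [Fin.append_right, mul_comm]
      exact Adm_mul (h2' l)
  · have hW : W ≤ W * W' := Nat.le_mul_of_pos_right _ h1'
    have hW' : W' ≤ W * W' := Nat.le_mul_of_pos_left _ h1
    have hGA : ∀ᵐ q ∂(JJ μ Z), q ∈ E → Gb μ Z T n W H q ≤ ε := by
      filter_upwards [hG] with q hq hqE
      have h5 := hq hqE
      rw [Gb_append] at h5
      have h6 := Gb_mono (μ := μ) (Z := Z) (T := T) H q hW
      have h7 := Gb_nonneg (μ := μ) (Z := Z) (T := T) (W := W * W') H' q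
      have h8 := min_le_left ε ε'
      linarith
    have hGB : ∀ᵐ q ∂(JJ μ Z), q ∈ E → Gb μ Z T n' W' H' q ≤ ε' := by
      filter_upwards [hG] with q hq hqE
      have h5 := hq hqE
      rw [Gb_append] at h5
      have h6 := Gb_mono (μ := μ) (Z := Z) (T := T) H' q hW'
      have h7 := Gb_nonneg (μ := μ) (Z := Z) (T := T) (W := W * W') H q
      have h8 := min_le_right ε ε'
      linarith
    have h9 := h4 E hE hi hGA
    have h10 := h4' E hE hi hGB
    have h11 : (E ∩ {q : X × X | ¬ (q.1 ∈ A ∪ B ↔ q.2 ∈ A ∪ B)}) ⊆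
        (E ∩ {q | ¬ (q.1 ∈ A ↔ q.2 ∈ A)}) ∪ (E ∩ {q | ¬ (q.1 ∈ B ↔ q.2 ∈ B)}) := by
      rintro q ⟨hqE, hq⟩
      simp only [Set.mem_union, Set.mem_inter_iff, Set.mem_setOf_eq] at hq ⊢
      tauto
    have hfin : IsFiniteMeasure (JJ μ Z) := by
      unfold JJ
      infer_instance
    have h12 := (measureReal_mono (μ := JJ μ Z) h11).trans (measureReal_union_le _ _)
    linarith

theorem NX_biUnion {f : ℕ → Set X} (hf : ∀ n, NX μ T Z (f n)) (n : ℕ) :
    NX μ T Z (⋃ i ∈ Finset.range n, f i) := by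
  induction n with
  | zero =>
    simp only [Finset.range_zero, Finset.notMem_empty, Set.iUnion_of_empty, Set.iUnion_empty]
    exact NX_empty
  | succ n ih =>
    have h1 : (⋃ i ∈ Finset.range (n + 1), f i) = (⋃ i ∈ Finset.range n, f i) ∪ f n := by
      rw [Finset.range_add_one, Finset.set_biUnion_insert, Set.union_comm]
    rw [h1]
    exact NX_union ih (hf n)

theorem NX_iUnion (hj : T_J2) (h : T_QM) (hT : Ergodic T μ) (hZ : InvZ T Z) {f : ℕ → Set X}
    (hf : ∀ n, NX μ T Z (f n)) : NX μ T Z (⋃ n, f n) := by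
  have hP := (hj X μ Z).1
  refine ⟨MeasurableSet.iUnion fun n => (hf n).1, fun δ hδ => ?_⟩
  obtain ⟨A, hA⟩ : ∃ A, A = ⋃ n, f n := ⟨_, rfl⟩
  have hAm : MeasurableSet A := hA ▸ MeasurableSet.iUnion fun n => (hf n).1
  obtain ⟨U, hU⟩ : ∃ U : ℕ → Set X, U = fun n => ⋃ i ∈ Finset.range n, f i := ⟨_, rfl⟩
  have hUm : ∀ n, MeasurableSet (U n) := fun n => by
    rw [hU]
    exact (NX_biUnion hf n).1
  have hUmono : Monotone U := by
    intro a b hab
    rw [hU]
    exact Set.biUnion_subset_biUnion_left fun i hi =>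
      Finset.mem_range.2 ((Finset.mem_range.1 hi).trans_le hab)
  have hUA : ⋃ n, U n = A := by
    rw [hU, hA]
    ext x
    simp only [Set.mem_iUnion, Finset.mem_range, exists_prop]
    exact ⟨fun ⟨_, i, _, hx⟩ => ⟨i, hx⟩, fun ⟨i, hx⟩ => ⟨i + 1, i, Nat.lt_succ_self i, hx⟩⟩
  obtain ⟨n, hn⟩ : ∃ n, μ.real (A \ U n) ≤ δ / 4 := by
    have h1 : Tendsto (fun n => μ (U n)) atTop (𝓝 (μ A)) := by
      rw [← hUA]
      exact tendsto_measure_iUnion_atTop hUmono
    have h2 : Tendsto (fun n => μ.real (U n)) atTop (𝓝 (μ.real A)) :=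
      (ENNReal.tendsto_toReal (measure_ne_top μ A)).comp h1
    have h3 : Tendsto (fun n => μ.real A - μ.real (U n)) atTop (𝓝 0) := by
      have := h2.const_sub (μ.real A)
      rwa [sub_self] at this
    obtain ⟨n, hn⟩ := (h3.eventually (ge_mem_nhds (show (0 : ℝ) < δ / 4 by positivity))).exists
    refine ⟨n, ?_⟩
    rwa [measureReal_diff (hUA ▸ Set.subset_iUnion U n) (hUm n)]
  obtain ⟨m, W, H, ε, h1, h2, h3, h4⟩ := (NX_biUnion hf n).2 (δ / 2) (by positivity)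
  refine ⟨m, W, H, ε, h1, h2, h3, fun E hE hi hG => ?_⟩
  have h5 := h4 E hE hi hG
  have hBm : MeasurableSet (A \ U n) := hAm.diff (hUm n)
  have hmarg : (JJ μ Z).real (E ∩ Prod.fst ⁻¹' (A \ U n)) ≤ δ / 4 * (JJ μ Z).real E ∧
      (JJ μ Z).real (E ∩ Prod.snd ⁻¹' (A \ U n)) ≤ δ / 4 * (JJ μ Z).real E := by
    rcases (measureReal_nonneg (μ := JJ μ Z) (s := E)).eq_or_lt with h0 | h0
    · rw [← h0, mul_zero]
      exact ⟨(measureReal_mono Set.inter_subset_left).trans h0.symm.le,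
        (measureReal_mono Set.inter_subset_left).trans h0.symm.le⟩
    · obtain ⟨hc1, hc2, hc3⟩ := (h X μ T Z hT hZ).2 E hE hi h0
      obtain ⟨hm1, hm2⟩ := (h X μ T Z hT hZ).1 _ hc1 hc2 hc3
      have key : ∀ g : X × X → X, MeasurePreserving g ((JJ μ Z)[|E]) μ →
          (JJ μ Z).real (E ∩ g ⁻¹' (A \ U n)) ≤ δ / 4 * (JJ μ Z).real E := by
        intro g hg
        have h6 := hg.measure_preimage hBm.nullMeasurableSet
        have h7 : ((JJ μ Z)[|E]).real (g ⁻¹' (A \ U n)) = μ.real (A \ U n) :=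
          congrArg ENNReal.toReal h6
        have h8 : ((JJ μ Z)[|E]).real (g ⁻¹' (A \ U n)) =
            ((JJ μ Z).real E)⁻¹ * (JJ μ Z).real (E ∩ g ⁻¹' (A \ U n)) := by
          rw [measureReal_def, cond_apply hE, ENNReal.toReal_mul, ENNReal.toReal_inv]
          rfl
        have h9 : (JJ μ Z).real (E ∩ g ⁻¹' (A \ U n)) = (JJ μ Z).real E * μ.real (A \ U n) := by
          rw [← h7, h8, mul_inv_cancel_left₀ h0.ne']
        rw [h9, mul_comm]
        exact mul_le_mul_of_nonneg_right hn h0.le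
      exact ⟨key _ hm1, key _ hm2⟩
  have h11 : (E ∩ {q : X × X | ¬ (q.1 ∈ ⋃ n, f n ↔ q.2 ∈ ⋃ n, f n)}) ⊆
      (E ∩ {q | ¬ (q.1 ∈ ⋃ i ∈ Finset.range n, f i ↔ q.2 ∈ ⋃ i ∈ Finset.range n, f i)}) ∪
        ((E ∩ Prod.fst ⁻¹' (A \ U n)) ∪ (E ∩ Prod.snd ⁻¹' (A \ U n))) := by
    rintro q ⟨hqE, hq⟩
    rw [← hA] at hq
    have hsub : ∀ x, x ∈ U n → x ∈ A := fun x hx => hUA ▸ Set.mem_iUnion.2 ⟨n, hx⟩
    have hUn : U n = ⋃ i ∈ Finset.range n, f i := by rw [hU]
    rw [← hUn]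
    have ha := hsub q.1
    have hb := hsub q.2
    simp only [Set.mem_union, Set.mem_inter_iff, Set.mem_setOf_eq, Set.mem_preimage,
      Set.mem_diff] at hq ⊢
    tauto
  have h12 := (measureReal_mono (μ := JJ μ Z) h11).trans (measureReal_union_le _ _)
  have h13 := measureReal_union_le (μ := JJ μ Z) (E ∩ Prod.fst ⁻¹' (A \ U n))
    (E ∩ Prod.snd ⁻¹' (A \ U n))
  linarith [hmarg.1, hmarg.2]

end

theorem pf_NXA (hj : T_J2) (h : T_QM) : T_NXA := by
  intro X _ _ μ _ T Z hT hZ A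
  constructor
  · intro hA
    refine MeasurableSpace.generateFrom_induction {A | NX μ T Z A} (fun A _ => NX μ T Z A)
      (fun A hA _ => hA) NX_empty (fun A _ hA => NX_compl hA)
      (fun f _ hf => NX_iUnion hj h hT hZ hf) A hA
  · intro hA
    exact MeasurableSpace.measurableSet_generateFrom hA

end Pool.Agent.H33.AG
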