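import Pool.Agent.H38.AG.Targets

/-!
# OMG: few prime factors
-/

set_option autoImplicit false

open Pool.Agent.H38.RB Pool.Agent.H38.PS Pool.Agent.H82.RD Pool.Agent.H38.AB Pool.Agent.H38.AG

namespace Pool.Agent.H33.AG

theorem card_log_le (S : Finset ℕ) (y Z : ℝ) (hy : 0 < y) (hS : ∀ p ∈ S, y ≤ (p : ℝ))
    (hZ : (pd S : ℝ) ≤ Z) : (S.card : ℝ) * Real.log y ≤ Real.log Z := by
  have h1 : y ^ S.card ≤ (pd S : ℝ) := by
    have h2 : (pd S : ℝ) = ∏ p ∈ S, (p : ℝ) := by
      rw [pd, Nat.cast_prod]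
    rw [h2, ← Finset.prod_const]
    exact Finset.prod_le_prod (fun _ _ => hy.le) hS
  have h3 : 0 < y ^ S.card := by positivity
  have h4 := Real.log_le_log h3 (h1.trans hZ)
  rwa [Real.log_pow] at h4

theorem pf_OMG : T_OMG := by
  intro θ hθ
  refine ⟨max 30 (4 / θ), θ / 40, Real.exp (max 3 ((16 / θ) ^ 4)), le_max_left _ _, by positivity,
    by linarith, ?_, ?_⟩
  · have h1 : (3 : ℝ) ≤ max 3 ((16 / θ) ^ 4) := le_max_left _ _
    have h2 := Real.add_one_le_exp (max 3 ((16 / θ) ^ 4))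
    linarith
  intro X E hX hE hEX hES
  obtain ⟨L, hL⟩ : ∃ L, L = Real.log X := ⟨_, rfl⟩
  have hX0 : 0 < X := (Real.exp_pos _).trans_le hX
  have hLm : max 3 ((16 / θ) ^ 4) ≤ L := by
    rw [hL]
    exact (Real.le_log_iff_exp_le hX0).2 hX
  have hL3 : 3 ≤ L := (le_max_left _ _).trans hLm
  have hL4 : (16 / θ) ^ 4 ≤ L := (le_max_right _ _).trans hLm
  have hll : 1 ≤ Real.log L := by
    rw [Real.le_log_iff_exp_le (by linarith)]
    have := Real.exp_one_lt_d9
    linarith
  have hX1 : 1 < X := by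
    by_contra h
    have := Real.log_nonpos hX0.le (not_lt.1 h)
    linarith
  rw [← hL] at hES ⊢
  obtain ⟨K, hK⟩ : ∃ K, K = max 30 (4 / θ) := ⟨_, rfl⟩
  have hK4 : 4 / θ ≤ K := hK ▸ le_max_right _ _
  have hK0 : 0 < K := lt_of_lt_of_le (by positivity) hK4
  rw [← hK] at hES
  set A := E.filter fun p : ℕ => (p : ℝ) ≤ L ^ K with hA
  set B := E.filter fun p : ℕ => ¬ (p : ℝ) ≤ L ^ K with hB
  set A1 := A.filter fun p : ℕ => (p : ℝ) ≤ Real.sqrt L with hA1
  set A2 := A.filter fun p : ℕ => ¬ (p : ℝ) ≤ Real.sqrt L with hA2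
  have hc1 : A.card + B.card = E.card := Finset.card_filter_add_card_filter_not _
  have hc2 : A1.card + A2.card = A.card := Finset.card_filter_add_card_filter_not _
  have hpd : ∀ S T : Finset ℕ, S ⊆ T → T ⊆ E → (pd S : ℝ) ≤ pd T := by
    intro S T hST hTE
    have : pd S ≤ pd T := by
      rw [pd, pd]
      refine Finset.prod_le_prod_of_subset_of_one_le' hST fun p hp _ => ?_
      exact (hE p (hTE hp)).one_le
    exact_mod_cast this
  -- large primes
  have hBl : (B.card : ℝ) * Real.log L ≤ θ / 4 * L := by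
    have h1 : (B.card : ℝ) * Real.log (L ^ K) ≤ Real.log X := by
      refine card_log_le B (L ^ K) X (by positivity) (fun p hp => ?_)
        ((hpd B E (Finset.filter_subset _ _) (Finset.Subset.refl _)).trans hEX)
      exact (not_le.1 (Finset.mem_filter.1 hp).2).le
    rw [Real.log_rpow (by linarith), ← hL] at h1
    have h2 : (B.card : ℝ) * Real.log L * K ≤ L := by linarith
    have h3 : (B.card : ℝ) * Real.log L * (4 / θ) ≤ (B.card : ℝ) * Real.log L * K :=
      mul_le_mul_of_nonneg_left hK4 (by positivity)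
    have h4 : (B.card : ℝ) * Real.log L * (4 / θ) ≤ L := h3.trans h2
    have h5 : (B.card : ℝ) * Real.log L = θ / 4 * ((B.card : ℝ) * Real.log L * (4 / θ)) := by
      field_simp
    rw [h5]
    exact mul_le_mul_of_nonneg_left h4 (by positivity)
  -- middle primes
  have hsq : 0 < Real.sqrt L := Real.sqrt_pos.2 (by linarith)
  have hA2l : (A2.card : ℝ) * Real.log L ≤ 6 * (θ / 40) * L := by
    have h1 : (A2.card : ℝ) * Real.log (Real.sqrt L) ≤ Real.log (X ^ (3 * (θ / 40))) := by
      refine card_log_le A2 (Real.sqrt L) _ hsq (fun p hp => ?_)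
        ((hpd A2 A (Finset.filter_subset _ _) (Finset.filter_subset _ _)).trans hES)
      exact (not_le.1 (Finset.mem_filter.1 hp).2).le
    rw [Real.log_rpow hX0, ← hL, Real.log_sqrt (by linarith)] at h1
    linarith
  -- small primes
  have hA1l : (A1.card : ℝ) * Real.log L ≤ θ / 4 * L := by
    have h1 : A1 ⊆ Finset.Icc 1 ⌊Real.sqrt L⌋₊ := by
      intro p hp
      rw [Finset.mem_Icc]
      have hp1 := Finset.mem_filter.1 hp
      have hp2 := Finset.mem_filter.1 hp1.1
      exact ⟨(hE p hp2.1).one_le, Nat.le_floor hp1.2⟩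
    have h2 : (A1.card : ℝ) ≤ Real.sqrt L := by
      have h3 := Finset.card_le_card h1
      rw [Nat.card_Icc, Nat.add_sub_cancel] at h3
      have h4 : (A1.card : ℝ) ≤ (⌊Real.sqrt L⌋₊ : ℝ) := by exact_mod_cast h3
      exact h4.trans (Nat.floor_le hsq.le)
    -- log L ≤ (θ / 4) sqrt L
    obtain ⟨z, hz⟩ : ∃ z, z = Real.sqrt (Real.sqrt L) := ⟨_, rfl⟩
    have hz0 : 0 < z := hz ▸ Real.sqrt_pos.2 hsq
    have hz2 : z ^ 2 = Real.sqrt L := by rw [hz, Real.sq_sqrt hsq.le]
    have hz4 : z ^ 4 = L := by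
      have : z ^ 4 = (z ^ 2) ^ 2 := by ring
      rw [this, hz2, Real.sq_sqrt (by linarith)]
    have hzθ : 16 / θ ≤ z := by
      refine le_of_pow_le_pow_left₀ (n := 4) (by norm_num) hz0.le ?_
      rw [hz4]
      exact hL4
    have hlz : Real.log L ≤ 4 * z := by
      have h5 : Real.log L = 4 * Real.log z := by
        rw [← hz4, Real.log_pow]
        norm_num
      have h6 := Real.log_le_sub_one_of_pos hz0
      rw [h5]
      linarith
    have h16 : 16 ≤ θ * z := by
      have := mul_le_mul_of_nonneg_left hzθ hθ.le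
      rwa [mul_div_cancel₀ _ hθ.ne'] at this
    have h7 : Real.log L ≤ θ / 4 * z ^ 2 := by
      have h8 : 16 * z ≤ θ * z * z := mul_le_mul_of_nonneg_right h16 hz0.le
      nlinarith
    calc (A1.card : ℝ) * Real.log L ≤ Real.sqrt L * (θ / 4 * z ^ 2) :=
          mul_le_mul h2 h7 (by linarith) hsq.le
      _ = θ / 4 * L := by
          rw [← hz2, ← hz4]
          ring
  have hcard : (E.card : ℝ) = A1.card + A2.card + B.card := by
    rw [← hc1, ← hc2]
    push_cast
    ring
  rw [hcard]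
  have hθL : 0 ≤ θ * L := by positivity
  nlinarith

end Pool.Agent.H33.AG
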